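import Pool.Agent.Lib.LU2G.Real

/-!
# B4, block Z: dimension four from the real valuations with residue degree one, rational rank one
-/

set_option autoImplicit false

namespace Pool.Agent.B4

open Pool.Agent.LU2 Pool.Agent.LU2G

universe u

/-- The real valuations of the function fields of dimension four, with residue degree one and
rational rank one. -/
def Core (k : Type u) [Field k] : Prop :=
  ∀ (K : Type u) [Field K] [Algebra k K], (⊤ : IntermediateField k K).FG →
    ∀ V : ValuationSubring K, (∀ c : k, algebraMap k K c ∈ V) → IsR1 V →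
      Algebra.trdeg k K = 4 → (∃ x : Fin 1 → K, IndVal V x) → (∃ z : Fin 1 → K, IndRes k V z) →
      ¬ DefLE k V 1 → LUr k V

/-- The real valuations of defect at most two. -/
def DefTwo (k : Type u) [Field k] : Prop :=
  ∀ (K : Type u) [Field K] [Algebra k K], (⊤ : IntermediateField k K).FG →
    ∀ V : ValuationSubring K, (∀ c : k, algebraMap k K c ∈ V) → IsR1 V → DefLE k V 2 → LUr k V

theorem DefTwo.core {k : Type u} [Field k] (h : DefTwo k) : Core k := by
  intro K _ _ hK V hk hV h4 hx hz _
  refine h K hK V hk hV ⟨1, 1, ?_, hx, hz⟩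
  rw [h4]
  norm_num

/-- An element of `V` whose residue is not in the algebraically closed field `k` is residually
transcendental. -/
theorem indRes_of_ne {k K : Type u} [Field k] [IsAlgClosed k] [Field K] [Algebra k K]
    {V : ValuationSubring K} (hk : ∀ c : k, algebraMap k K c ∈ V) {f : K} (hf : f ∈ V)
    (h : ∀ c : k, ¬ V.valuation (f - algebraMap k K c) < 1) :
    IndRes k V (fun _ : Fin 1 => f) := by
  refine ⟨fun _ => hf, fun P hP => ?_⟩
  by_contra hP0
  obtain ⟨Q, hQ⟩ : ∃ Q : Polynomial k, Q = MvPolynomial.uniqueAlgEquiv k (Fin 1) P := ⟨_, rfl⟩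
  have hQ0 : Q ≠ 0 := by
    rw [hQ]
    exact (map_ne_zero_iff _ (MvPolynomial.uniqueAlgEquiv k (Fin 1)).injective).2 hP0
  have hev : Polynomial.aeval f Q = MvPolynomial.aeval (fun _ : Fin 1 => f) P := by
    have h1 : ((Polynomial.aeval f).comp
        (MvPolynomial.uniqueAlgEquiv k (Fin 1)).toAlgHom) =
        (MvPolynomial.aeval (fun _ : Fin 1 => f) : MvPolynomial (Fin 1) k →ₐ[k] K) := by
      ext i
      simp [MvPolynomial.uniqueAlgEquiv]
    rw [hQ, ← h1]
    rfl
  rw [← hev] at hP
  have hone : ∀ c : k, V.valuation (f - algebraMap k K c) = 1 := fun c =>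
    le_antisymm ((V.valuation_le_one_iff _).2 (V.sub_mem hf (hk c))) (not_lt.1 (h c))
  have hcon : ∀ c : k, c ≠ 0 → V.valuation (algebraMap k K c) = 1 := by
    intro c hc
    refine le_antisymm ((V.valuation_le_one_iff _).2 (hk c)) ?_
    have h2 : V.valuation (algebraMap k K c⁻¹) ≤ 1 := (V.valuation_le_one_iff _).2 (hk c⁻¹)
    rw [map_inv₀, map_inv₀] at h2
    have h3 : V.valuation (algebraMap k K c) ≠ 0 :=
      (Valuation.ne_zero_iff _).2 ((_root_.map_ne_zero _).2 hc)
    exact (inv_le_one₀ (zero_lt_iff.2 h3)).1 h2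
  have hsplit : Q.Splits := IsAlgClosed.splits Q
  have hprod := hsplit.eq_prod_roots
  have h5 : V.valuation (Polynomial.aeval f Q) = 1 := by
    rw [hprod, map_mul, map_mul, Polynomial.aeval_C, hcon _ (Polynomial.leadingCoeff_ne_zero.2 hQ0),
      one_mul, map_multiset_prod, map_multiset_prod, Multiset.map_map, Multiset.map_map]
    refine Multiset.prod_eq_one fun x hx => ?_
    obtain ⟨c, -, rfl⟩ := Multiset.mem_map.1 hx
    simp only [Function.comp_apply, map_sub, Polynomial.aeval_X, Polynomial.aeval_C]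
    exact hone c
  rw [h5] at hP
  exact lt_irrefl _ hP

/-- A valuation ring of rank one has a value of infinite order. -/
theorem exists_indVal {K : Type u} [Field K] {V : ValuationSubring K} (hV : V ≠ ⊤) :
    ∃ x : Fin 1 → K, IndVal V x := by
  obtain ⟨f, hf⟩ : ∃ f : K, f ∉ V := by
    by_contra hcon
    push Not at hcon
    exact hV (eq_top_iff.2 fun x _ => hcon x)
  have h1 : 1 < V.valuation f := by
    rw [← not_le, V.valuation_le_one_iff]
    exact hf
  have hf0 : f ≠ 0 := by
    rintro rfl
    exact hf V.zero_mem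
  refine ⟨fun _ => f, fun _ => hf0, fun e he => ?_⟩
  have h2 : (e.prod fun i n => (fun _ : Fin 1 => f) i ^ n) = f ^ (e 0) := by
    rw [Finsupp.prod_fintype _ _ (fun i => by simp)]
    simp
  rw [h2, map_zpow₀] at he
  have h3 : e 0 = 0 := by
    rcases lt_trichotomy (e 0) 0 with h | h | h
    · have := zpow_lt_one_of_neg₀ h1 h
      rw [he] at this
      exact absurd this (lt_irrefl _)
    · exact h
    · have := one_lt_zpow₀ h1 h
      rw [he] at this
      exact absurd this (lt_irrefl _)
  refine Finsupp.ext fun i => ?_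
  have h4 : i = 0 := Subsingleton.elim _ _
  rw [h4, h3]
  rfl

/-- The reduction: the real valuations of the function fields of dimension at most four. -/
theorem real_four {k : Type u} [Field k] [IsAlgClosed k] (h1 : RealCaseR k)
    (h0 : ∀ (K : Type u) [Field K] [Algebra k K], (⊤ : IntermediateField k K).FG →
      ∀ V : ValuationSubring K, (∀ c : k, algebraMap k K c ∈ V) → IsR1 V →
        (∀ f ∈ V, ∃ c : k, V.valuation (f - algebraMap k K c) < 1) →
        ∀ m : ℕ, Algebra.trdeg k K = m → m ≤ 4 → LUr k V)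
    (h : Core k) (K : Type u) [Field K] [Algebra k K] (hK : (⊤ : IntermediateField k K).FG)
    (V : ValuationSubring K) (hk : ∀ c : k, algebraMap k K c ∈ V) (hV : IsR1 V) (m : ℕ)
    (hm : Algebra.trdeg k K = m) (hm4 : m ≤ 4) : LUr k V := by
  by_cases hD : DefLE k V 1
  · exact h1 K hK V hk hV hD
  by_cases hz : ∀ f ∈ V, ∃ c : k, V.valuation (f - algebraMap k K c) < 1
  · exact h0 K hK V hk hV hz m hm hm4
  push Not at hz
  obtain ⟨f, hf, hc⟩ := hz
  have hz : IndRes k V (fun _ : Fin 1 => f) := indRes_of_ne hk hf fun c => not_lt.2 (hc c)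
  have hx := exists_indVal hV.1
  have hm' : m = 4 := by
    by_contra hne
    refine hD ⟨1, 1, ?_, hx, _, hz⟩
    rw [hm]
    exact_mod_cast (by omega : m ≤ 1 + 1 + 1)
  refine h K hK V hk hV ?_ hx ⟨_, hz⟩ hD
  rw [hm, hm']
  norm_num

end Pool.Agent.B4
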